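import Pool.Agent.Lib.MP_3b0e0c_al.U.Root

/-! The hypotheses of the earlier statements imply the hypothesis on conjugate pairs. -/

namespace Pool.Agent.Lib.MP_3b0e0c_al.U

open Subgroup

variable {G : Type*} [Group G]

lemma lcs_succ_bot {K : Subgroup G} {n : ℕ} (h : K.lowerCentralSeries n = ⊥) :
    K.lowerCentralSeries (n + 1) = ⊥ := by
  rw [Subgroup.lowerCentralSeries_succ, h, commutator_bot_left]

/-- Conjugate pairs of class at most seven. -/
theorem eight_of_seven (h : ∀ x g : G, (closure {x, g * x * g⁻¹}).lowerCentralSeries 7 = ⊥)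
    (x g : G) : (closure {x, g * x * g⁻¹}).lowerCentralSeries 8 = ⊥ := lcs_succ_bot (h x g)

/-- Two-generator subgroups of class at most nine. -/
theorem eight_of_nine (h : ∀ x g : G, (closure {x, g}).lowerCentralSeries 9 = ⊥)
    (x g : G) : (closure {x, g * x * g⁻¹}).lowerCentralSeries 8 = ⊥ := conj_class' (h x g)

/-- Class at most nine is class at most ten. -/
theorem ten_of_nine (h : ∀ x g : G, (closure {x, g}).lowerCentralSeries 9 = ⊥)
    (x g : G) : (closure {x, g}).lowerCentralSeries 10 = ⊥ := lcs_succ_bot (h x g)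

end Pool.Agent.Lib.MP_3b0e0c_al.U
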