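import Pool.Agent.Lib.MP_3b0e0c_al.U.Strong
import Pool.Agent.Lib.MP_3b0e0c_al.ProgAB

/-! The root trick, and conjugate pairs of class at most eight. -/

namespace Pool.Agent.Lib.MP_3b0e0c_al.U

open Subgroup S
open scoped commutatorElement

variable {G : Type*} [Group G]

/-- The root trick. -/
theorem LF_root {x : G} (hx : x ^ 8 = 1)
    (h : ∀ g : G, Commute ⁅x ^ 4, g * x ^ 4 * g⁻¹⁆ x) : LF (normalClosure {x ^ 4}) := by
  obtain ⟨s, hs⟩ : ∃ s, s = x ^ 4 := ⟨_, rfl⟩
  rw [← hs] at h ⊢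
  have s2 : s * s = 1 := by rw [hs, ← pow_add, hx]
  have s1 : s⁻¹ = s := inv_eq_of_mul_eq_one_right s2
  let D : Set G := {v | v = 1 ∨ ∃ g, v = g * s * g⁻¹}
  have sq : ∀ v ∈ D, v * v = 1 := by
    rintro _ (rfl | ⟨g, rfl⟩)
    · simp
    · rw [conj_mul, s2]; simp
  have i1 : ∀ v ∈ D, v⁻¹ = v := fun v hv => inv_eq_of_mul_eq_one_right (sq v hv)
  have cj : ∀ v ∈ D, ∀ g : G, g * v * g⁻¹ ∈ D := by
    rintro _ (rfl | ⟨k, rfl⟩) g
    · exact Or.inl (by simp)
    · exact Or.inr ⟨g * k, by group⟩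
  have sD : s ∈ D := Or.inr ⟨1, by simp⟩
  have a0 : ∀ v ∈ D, Commute (cm s v) x := by
    rintro _ (rfl | ⟨g, rfl⟩)
    · simp [cm, s2]
    · have := h g
      rwa [commutatorElement_def, s1, i1 _ (cj s sD g)] at this
  have a1 : ∀ v ∈ D, ∀ k : G, Commute s k → Commute (cm s v) (k * x * k⁻¹) := by
    intro v hv k hk
    have := (a0 _ (cj v hv k⁻¹)).conj k
    have e : k * s * k⁻¹ = s := by rw [← hk.eq]; group
    rwa [show k * cm s (k⁻¹ * v * k⁻¹⁻¹) * k⁻¹ = k * s * k⁻¹ * v * (k * s * k⁻¹) * v by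
      rw [cm]; group, e] at this
  have a2 : ∀ v ∈ D, Commute (cm s v) s := fun v hv => hs ▸ (a0 v hv).pow_right 4
  have a3 : ∀ v ∈ D, Commute s (v * s * v) := by
    intro v hv
    have := (Commute.refl s).mul_left (a2 v hv)
    simpa only [cm, ← mul_assoc, s2, one_mul] using this.symm
  have a4 : ∀ u ∈ D, ∀ v ∈ D, (u * v) ^ 4 = 1 := by
    rintro _ (rfl | ⟨g, rfl⟩) v hv
    · rw [one_mul, show 4 = 2 * 2 from rfl, pow_mul, pow_two v, sq v hv, one_pow]
    · have h1 := cj v hv g⁻¹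
      have h2 := (a3 _ h1).eq
      have h3 := sq _ h1
      rw [show g * s * g⁻¹ * v = g * (s * (g⁻¹ * v * g⁻¹⁻¹)) * g⁻¹ by group, conj_pow]
      generalize g⁻¹ * v * g⁻¹⁻¹ = r at *
      have : (s * r) ^ 4 = 1 :=
        calc _ = s * (r * s * r) * (s * (r * s * r)) := by simp only [pow_succ, pow_zero, one_mul,
              mul_assoc]
          _ = r * s * r * s * (s * (r * s * r)) := by rw [h2]
          _ = _ := by simp only [← mul_assoc, mul_sq s2, mul_sq h3, h3]
      rw [this]; simp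
  have a5 : ∀ v ∈ D, ∀ w ∈ D, Commute (cm s w) (v * s * v) := by
    intro v hv w hw
    have v1 := i1 v hv
    have v2 := sq v hv
    obtain ⟨y, hy⟩ : ∃ y, y = v * x * v⁻¹ := ⟨_, rfl⟩
    have y4 : y ^ 4 = v * s * v := by rw [hy, conj_pow, ← hs, v1]
    have b1 : Commute (cm s v) y := by
      have := (a0 v hv).conj v
      rwa [← hy, show v * cm s v * v⁻¹ = v * s * v * s by
        rw [v1]; simp only [cm, ← mul_assoc, mul_sq v2], ← (a3 v hv).eq,
        show s * (v * s * v) = cm s v by simp only [cm, mul_assoc]] at this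
    have b2 : Commute s y := by
      have := b1.mul_left (y4 ▸ (Commute.refl y).pow_left 4)
      rwa [show cm s v * (v * s * v) = s by
        simp only [cm, ← mul_assoc, mul_sq v2, mul_sq s2]] at this
    have b3 : (x * y⁻¹) ^ 4 = 1 := by
      rw [← a4 _ (cj v hv x) v hv, hy, v1]
      congr 1
      rw [mul_inv_rev, mul_inv_rev, v1]; group
    have b4 : y ^ 4 = x * (y⁻¹ * x * y⁻¹⁻¹) * (y⁻¹ ^ 2 * x * (y⁻¹ ^ 2)⁻¹) *
        (y⁻¹ ^ 3 * x * (y⁻¹ ^ 3)⁻¹) := by
      rw [← one_mul (y ^ 4), ← b3]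
      simp only [pow_succ, pow_zero, one_mul, mul_inv_rev, inv_inv, mul_assoc, inv_mul_cancel_left,
        mul_inv_cancel_left]
    rw [← y4, b4]
    exact (((a0 w hw).mul_right (a1 w hw _ b2.inv_right)).mul_right
      (a1 w hw _ (b2.inv_right.pow_right 2))).mul_right (a1 w hw _ (b2.inv_right.pow_right 3))
  have a6 : ∀ b ∈ D, ∀ c ∈ D, Commute (b * s * b) (c * s * c) := by
    intro b hb c hc
    simpa only [cm, ← mul_assoc, s2, one_mul] using (a3 c hc).mul_left (a5 c hc b hb)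
  have hD : SC D := by
    refine ⟨Or.inl rfl, sq, fun u hu v hv => by simpa only [i1 v hv] using cj u hu v, ?_⟩
    rintro _ (rfl | ⟨g, rfl⟩) b hb c hc
    · simp [sq b hb]
    · have := (a6 _ (cj b hb g⁻¹) _ (cj c hc g⁻¹)).conj g
      rwa [show ∀ b : G, g * (g⁻¹ * b * g⁻¹⁻¹ * s * (g⁻¹ * b * g⁻¹⁻¹)) * g⁻¹ =
        b * (g * s * g⁻¹) * b from fun b => by group,
        show ∀ b : G, g * (g⁻¹ * b * g⁻¹⁻¹ * s * (g⁻¹ * b * g⁻¹⁻¹)) * g⁻¹ =
        b * (g * s * g⁻¹) * b from fun b => by group] at this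
  refine hD.lf.mono (closure_mono fun z hz => ?_)
  obtain ⟨u, h1, hz⟩ := Group.mem_conjugatesOfSet_iff.1 hz
  rw [Set.mem_singleton_iff.1 h1] at hz
  obtain ⟨g, rfl⟩ := isConj_iff.1 hz
  exact Or.inr ⟨g, rfl⟩

lemma central8 {x y : G} (h8 : (closure {x, y}).lowerCentralSeries 8 = ⊥) {n : ℕ}
    (hc : ∀ (a b : closure ({x, y} : Set G)), (a : G) = x → (b : G) = y →
      (closure {QuotientGroup.mk' (center _) a,
        QuotientGroup.mk' (center _) b}).lowerCentralSeries 7 = ⊥ →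
      Commute (QuotientGroup.mk' (center _) a ^ n) (QuotientGroup.mk' (center _) b ^ n)) :
    Commute ⁅x ^ n, y ^ n⁆ x := by
  let a : closure ({x, y} : Set G) := ⟨x, subset_closure (by simp)⟩
  let b : closure ({x, y} : Set G) := ⟨y, subset_closure (by simp)⟩
  have h7 : (closure {QuotientGroup.mk' (center _) a,
      QuotientGroup.mk' (center _) b}).lowerCentralSeries 7 = ⊥ := by
    rw [← Set.image_pair, ← MonoidHom.map_closure, ← map_lowerCentralSeries,
      Subgroup.map_eq_bot_iff, QuotientGroup.ker_mk']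
    intro u hu
    have h1 : (u : G) ∈ (closure {x, y}).lowerCentralSeries 7 := by
      have := mem_map_of_mem (closure ({x, y} : Set G)).subtype hu
      rwa [map_lowerCentralSeries, MonoidHom.map_closure, Set.image_pair] at this
    refine mem_center_iff.2 fun k => Subtype.ext ?_
    have := commutator_mem_commutator h1 k.2
    rw [← Subgroup.lowerCentralSeries_succ, h8, mem_bot,
      commutatorElement_eq_one_iff_mul_comm] at this
    exact this.symm
  have h1 := hc a b rfl rfl h7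
  rw [← map_pow, ← map_pow, ← commutatorElement_eq_one_iff_commute,
    ← map_commutatorElement] at h1
  have h2 := mem_center_iff.1 ((QuotientGroup.eq_one_iff _).1 h1) a
  exact (congrArg Subtype.val h2).symm

theorem LF_of_eight (h2 : IsPGroup 2 G)
    (h : ∀ x g : G, (closure {x, g * x * g⁻¹}).lowerCentralSeries 8 = ⊥) :
    LF (⊤ : Subgroup G) := by
  have hq := h2.to_quotient (rad G)
  have h8 : ∀ x g : G ⧸ rad G, (closure {x, g * x * g⁻¹}).lowerCentralSeries 8 = ⊥ := by
    intro x g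
    obtain ⟨x, rfl⟩ := QuotientGroup.mk'_surjective _ x
    obtain ⟨g, rfl⟩ := QuotientGroup.mk'_surjective _ g
    have := congrArg (Subgroup.map (QuotientGroup.mk' (rad G))) (h x g)
    rwa [Subgroup.map_lowerCentralSeries, MonoidHom.map_closure, Set.image_pair, map_mul, map_mul,
      map_inv, Subgroup.map_bot] at this
  have triv : ∀ x : G ⧸ rad G, x ^ 8 = 1 → (∀ g, Commute ⁅x ^ 4, g * x ^ 4 * g⁻¹⁆ x) → x ^ 4 = 1 :=
    fun x hx h => quot_triv (LF_root hx h) (subset_normalClosure rfl)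
  have e8 : ∀ u : G ⧸ rad G, u ^ 8 = 1 := fun u => by
    obtain ⟨k, hk⟩ := hq u
    refine descend (c := 8) (fun j e => ?_) hk
    rw [mul_comm, pow_mul]
    have e1 : (u ^ j) ^ 16 = 1 := by rw [← e, ← pow_mul]; congr 1; ring
    generalize u ^ j = z at e1
    have e2 : (z ^ 2) ^ 4 = z ^ 8 := by rw [← pow_mul]
    rw [← e2]
    refine triv _ (by rw [← pow_mul, e1]) fun g => ?_
    rw [e2, ← conj_pow]
    refine (central8 (h8 z g) fun a b ha hb h7 => ?_).pow_right 2
    refine commA ((hq.to_subgroup _).to_quotient _) h7 ?_ ?_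
    · rw [← map_pow, show a ^ 16 = 1 from Subtype.ext (by rw [coe_pow, ha, e1]; rfl), map_one]
    · rw [← map_pow, show b ^ 16 = 1 from
        Subtype.ext (by rw [coe_pow, hb, conj_pow, e1]; simp), map_one]
  have e4 : ∀ u : G ⧸ rad G, u ^ 4 = 1 := fun u => triv u (e8 u) fun g => by
    rw [← conj_pow]
    refine central8 (h8 u g) fun a b _ _ h7 => commB h7 fun v => ?_
    obtain ⟨v, rfl⟩ := QuotientGroup.mk'_surjective _ v
    rw [← map_pow, show v ^ 8 = 1 from Subtype.ext (e8 _), map_one]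
  have hk : LF (QuotientGroup.mk' (rad G)).ker := by rw [QuotientGroup.ker_mk']; exact LF_rad
  have := LF.comap _ hk (sanov e4)
  rwa [comap_top] at this

/-- If `⟨x, g⟩` has class at most `n + 2`, then `⟨x, g x g⁻¹⟩` has class at most `n + 1`. -/
lemma conj_class' {x g : G} {n : ℕ} (h : (closure {x, g}).lowerCentralSeries (n + 2) = ⊥) :
    (closure {x, g * x * g⁻¹}).lowerCentralSeries (n + 1) = ⊥ := by
  set a : F := .of false
  set b : F := .of true
  have h1 : ⁅closure {a, b * a * b⁻¹}, closure {a, b * a * b⁻¹}⁆ ≤ Γ F 2 := by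
    rw [← QuotientGroup.ker_mk' (Γ F 2), ← Subgroup.map_eq_bot_iff, map_commutator,
      commutator_self_eq_bot_iff, MonoidHom.map_closure, Set.image_pair]
    have hc : QuotientGroup.mk' (Γ F 2) a * QuotientGroup.mk' (Γ F 2) (b * a * b⁻¹) =
        QuotientGroup.mk' (Γ F 2) (b * a * b⁻¹) * QuotientGroup.mk' (Γ F 2) a := by
      rw [← commutatorElement_eq_one_iff_mul_comm, ← map_commutatorElement,
        show ⁅a, b * a * b⁻¹⁆ = ⁅a, ⁅b, a⁆⁆ by simp only [commutatorElement_def]; group]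
      exact (QuotientGroup.eq_one_iff _).2
        (comm_mem (mem_zero a) (comm_mem (mem_zero b) (mem_zero a) le_rfl) le_rfl)
    refine isMulCommutative_closure ?_
    rintro _ (rfl | rfl) _ (rfl | rfl)
    exacts [rfl, hc, hc.symm, rfl]
  have h2 : ∀ n, (closure {a, b * a * b⁻¹}).lowerCentralSeries (n + 1) ≤ Γ F (n + 2) := by
    intro n
    induction n with
    | zero => exact h1
    | succ n ih => exact commutator_mono ih le_top
  have h3 := map_mono (f := pi2 x g) (h2 n)
  rw [pi2_map, h, Subgroup.map_lowerCentralSeries, MonoidHom.map_closure, Set.image_pair,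
    le_bot_iff] at h3
  simpa [a, b, pi2] using h3

end Pool.Agent.Lib.MP_3b0e0c_al.U
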