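import Pool.Agent.Lib.MP_3b0e0c_al.S.Path

/-! A conjugation closed set of involutions that are strong sandwiches generates a locally finite
group: the strong sandwich law survives adding commutators. -/

namespace Pool.Agent.Lib.MP_3b0e0c_al.U

open Subgroup S

variable {G : Type*} [Group G]

/-- Conjugation closed strong sandwich sets. -/
structure SC (D : Set G) : Prop where
  one : (1 : G) ∈ D
  sq : ∀ u ∈ D, u * u = 1
  cj : ∀ u ∈ D, ∀ v ∈ D, v * u * v ∈ D
  st : ∀ u ∈ D, ∀ b ∈ D, ∀ c ∈ D, Commute (b * u * b) (c * u * c)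

/-- The group generated by the conjugates of `u` under the elements of `D`. -/
def B (D : Set G) (u : G) : Subgroup G := closure {x | ∃ v ∈ D, x = v * u * v}

/-- Adding commutators. -/
def nx (D : Set G) : Set G := D ∪ {a | ∃ u ∈ D, ∃ v ∈ D, a = cm u v}

variable {D : Set G}

lemma comB {u x y : G} (h : ∀ b ∈ D, ∀ c ∈ D, Commute (b * u * b) (c * u * c)) (hx : x ∈ B D u)
    (hy : y ∈ B D u) : Commute x y := by
  have : IsMulCommutative (B D u) := by
    refine isMulCommutative_closure ?_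
    rintro _ ⟨b, hb, rfl⟩ _ ⟨c, hc, rfl⟩
    exact h b hb c hc
  exact setLike_mul_comm hx hy

lemma m0 {u v : G} (hv : v ∈ D) : v * u * v ∈ B D u := subset_closure ⟨v, hv, rfl⟩

lemma SC.m1 (h : SC D) {u : G} : u ∈ B D u := by simpa using m0 (u := u) h.one

lemma SC.m2 (h : SC D) {u v : G} (hv : v ∈ D) : cm u v ∈ B D u := by
  simpa only [cm, mul_assoc] using mul_mem h.m1 (m0 (u := u) hv)

lemma SC.m3 (h : SC D) {u v : G} (hv : v ∈ D) : cm v u ∈ B D u := mul_mem (m0 hv) h.m1

lemma SC.co (h : SC D) {u x y : G} (hu : u ∈ D) (hx : x ∈ B D u) (hy : y ∈ B D u) :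
    Commute x y := comB (h.st u hu) hx hy

lemma SC.split (h : SC D) {p q : G} (hp : p ∈ D) (hq : q ∈ D) (z : G) :
    cm p q * z * cm p q = q * p * q * (p * z * p) * (q * p * q) := by
  have e := (h.co hp h.m1 (m0 hq)).eq
  calc _ = p * (q * p * q) * z * (p * (q * p * q)) := by simp only [cm, mul_assoc]
    _ = q * p * q * p * z * (p * (q * p * q)) := by rw [e]
    _ = _ := by simp only [mul_assoc]

lemma SC.form (h : SC D) {p q z : G} (hp : p ∈ D) (hq : q ∈ D) (hz : z * z = 1)
    (hm : cm p z ∈ B D p) : cm p q * z * cm p q = cm p z * (q * p * q * z * (q * p * q)) := by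
  have e := (h.co hp (m0 hq) hm).eq
  rw [h.split hp hq, show p * z * p = cm p z * z by rw [cm, mul_sq hz], ← mul_assoc (q * p * q), e]
  simp only [mul_assoc]

lemma SC.m4 (h : SC D) {u b : G} (hu : u ∈ D) (hb : b ∈ nx D) : b * u * b ∈ B D u := by
  rcases hb with hb | ⟨p, hp, q, hq, rfl⟩
  · exact m0 hb
  · rw [h.form hp hq (h.sq u hu) (h.m2 hu)]
    exact mul_mem (h.m3 hp) (m0 (h.cj p hp q hq))

lemma SC.sqn (h : SC D) {a : G} (ha : a ∈ nx D) : a * a = 1 := by
  rcases ha with ha | ⟨u, hu, v, hv, rfl⟩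
  · exact h.sq a ha
  · have e := (h.co hu h.m1 (m0 hv)).eq
    calc _ = u * (v * u * v) * (u * (v * u * v)) := by simp only [cm, mul_assoc]
      _ = v * u * v * u * (u * (v * u * v)) := by rw [e]
      _ = _ := by simp only [← mul_assoc, mul_sq (h.sq u hu), mul_sq (h.sq v hv), h.sq v hv]

lemma SC.psi (h : SC D) {w w' c d : G} (hw : w ∈ D) (hw' : w' ∈ D) (hc : c ∈ D) (hd : d ∈ D)
    (h1 : w' ∈ B D w) (h2 : w ∈ B D w') : Commute (cm (c * w' * c) (d * w * d)) d := by
  have w2 := h.sq w hw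
  have w2' := h.sq w' hw'
  have d2 := h.sq d hd
  have hf : cm c w' ∈ nx D := Or.inr ⟨c, hc, w', hw', rfl⟩
  have e1 : Commute w' (d * w * d) := h.co hw h1 (m0 hd)
  have e2 : Commute w' (cm c w') := h.co hw' h.m1 (h.m3 hc)
  have e3 : Commute w (cm c w') := h.co hw' h2 (h.m3 hc)
  have e4 : Commute w (cm d w) := h.co hw h.m1 (h.m3 hd)
  have hd' : w * d * w ∈ D := h.cj d hd w hw
  have hdd : d ∈ B D (w * d * w) := by
    have := m0 (D := D) (u := w * d * w) hw
    rwa [show w * (w * d * w) * w = d by simp only [← mul_assoc, w2, one_mul, mul_sq w2]] at this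
  have a1 : c * w' * c = cm c w' * w' := by rw [cm, mul_sq w2']
  have a2 : d * w * d = cm d w * w := by rw [cm, mul_sq w2]
  have a3 : cm d w = d * (w * d * w) := by simp only [cm, mul_assoc]
  have f2 := h.sqn hf
  generalize cm c w' = f at *
  have k1 : Commute (f * d * f) d := h.co hd (h.m4 hd hf) h.m1
  have k2 : Commute (f * (w * d * w) * f) d := h.co hd' (h.m4 hd' hf) hdd
  have k3 : Commute (w * d * w) d := h.co hd (m0 hw) h.m1
  have := ((k1.mul_left k2).mul_left (Commute.refl d)).mul_left k3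
  have b1 : cm (f * w') (d * w * d) = f * (d * w * d) * f * (d * w * d) := by
    generalize d * w * d = δ at *
    calc _ = f * (w' * δ) * (f * w') * δ := by simp only [cm, mul_assoc]
      _ = f * (δ * w') * (w' * f) * δ := by rw [e1.eq, e2.eq]
      _ = _ := by simp only [← mul_assoc, mul_sq w2']
  have b2 : f * (cm d w * w) * f * (cm d w * w) = f * cm d w * f * cm d w := by
    generalize cm d w = φ at *
    calc _ = f * φ * (w * f) * (φ * w) := by simp only [mul_assoc]
      _ = f * φ * (f * w) * (w * φ) := by rw [e3.eq, e4.eq]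
      _ = _ := by simp only [← mul_assoc, mul_sq w2]
  rw [a1, b1, a2, b2, a3]
  simpa only [← mul_assoc, mul_sq f2] using this

lemma SC.swap (h : SC D) {w w' c d : G} (hw' : w' ∈ D) (hc : c ∈ D) (hd : d ∈ D)
    (hw : w ∈ D) (h2 : w ∈ B D w') :
    cm (c * (d * w' * d) * c) w = cm (d * (c * w' * c) * d) w := by
  have c2 := h.sq c hc
  have d2 := h.sq d hd
  have w2 := h.sq w hw
  have w2' := h.sq w' hw'
  have ecd : cm c d = cm d c := by
    have := (h.co hc h.m1 (m0 hd)).eq
    simpa only [cm, mul_assoc] using this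
  have y1 : ∀ {c d : G}, c ∈ D → d ∈ D → Commute (cm c d * w' * cm c d * w') c := by
    intro c d hc hd
    have hr := h.cj c hc d hd
    have hcr : c ∈ B D (d * c * d) := by
      have := m0 (D := D) (u := d * c * d) hd
      rwa [show d * (d * c * d) * d = c by
        simp only [← mul_assoc, h.sq d hd, one_mul, mul_sq (h.sq d hd)]] at this
    rw [h.form hc hd w2' (h.m2 hw'), mul_assoc]
    exact (h.co hc (h.m2 hw') h.m1).mul_left (h.co hr (h.m2 hw') hcr)
  have yc := y1 hc hd
  have yd := y1 hd hc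
  rw [← ecd] at yd
  have hn : cm c d ∈ nx D := Or.inr ⟨c, hc, d, hd, rfl⟩
  have ym : cm c d * w' * cm c d * w' ∈ B D w' := mul_mem (h.m4 hw' hn) h.m1
  have yw := h.co hw' ym h2
  have yw' := h.co hw' ym h.m1
  have e1 : c * (d * w' * d) * c = cm c d * w' * cm c d * w' * (d * (c * w' * c) * d) := by
    have e2 : c * (d * w' * d) * c = d * (c * (cm c d * w' * cm d c * w' * w') * c) * d := by
      rw [mul_sq w2']
      simp only [cm, ← mul_assoc, mul_sq c2, mul_sq d2, d2, one_mul]
    rw [e2, ← ecd]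
    generalize cm c d * w' * cm c d * w' = y at *
    calc _ = d * (c * y) * w' * c * d := by simp only [mul_assoc]
      _ = d * y * c * w' * c * d := by rw [← yc.eq]; simp only [mul_assoc]
      _ = _ := by rw [← yd.eq]; simp only [mul_assoc]
  have k2 := h.sq _ (h.cj _ (h.cj _ hw' _ hc) _ hd)
  have k3 := h.sq _ (h.cj _ (h.cj _ hw' _ hd) _ hc)
  have yk : Commute (cm c d * w' * cm c d * w') (d * (c * w' * c) * d) :=
    (yd.mul_right ((yc.mul_right yw').mul_right yc)).mul_right yd
  rw [e1] at k3 ⊢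
  generalize cm c d * w' * cm c d * w' = y at *
  generalize d * (c * w' * c) * d = κ at *
  have y2 : y * y = 1 := by
    rw [← k3]
    calc y * y = y * (y * κ) * κ := by simp only [← mul_assoc, mul_sq k2]
      _ = y * (κ * y) * κ := by rw [yk.eq]
      _ = _ := by simp only [mul_assoc]
  calc _ = y * (κ * w * y) * (κ * w) := by simp only [cm, mul_assoc]
    _ = y * (y * (κ * w)) * (κ * w) := by rw [(yk.mul_right yw).eq]
    _ = _ := by simp only [cm, ← mul_assoc, y2, one_mul]

lemma SC.tau (h : SC D) {w w' c d : G} (hw : w ∈ D) (hw' : w' ∈ D) (hc : c ∈ D) (hd : d ∈ D)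
    (h1 : w' ∈ B D w) (h2 : w ∈ B D w') : Commute (c * (w * w') * c) (d * (w * w') * d) := by
  have c2 := h.sq c hc
  have d2 := h.sq d hd
  have cj : ∀ {c d : G}, c ∈ D → d ∈ D →
      cm (c * w' * c) (d * w * d) = cm (d * (c * w' * c) * d) w := by
    intro c d hc hd
    have d2 := h.sq d hd
    have e := (h.psi hw hw' hc hd h1 h2).eq
    calc _ = d * (d * cm (c * w' * c) (d * w * d)) := by rw [← mul_assoc, d2, one_mul]
      _ = d * (cm (c * w' * c) (d * w * d) * d) := by rw [e]
      _ = _ := by simp only [cm, ← mul_assoc, mul_sq d2]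
  have e : cm (c * w' * c) (d * w * d) = cm (d * w' * d) (c * w * c) := by
    rw [cj hc hd, cj hd hc, h.swap hw' hc hd hw h2]
  have a0 := h.cj w hw c hc
  have a1 := h.cj w' hw' c hc
  have b0 := h.cj w hw d hd
  have b1 := h.cj w' hw' d hd
  have r1 : Commute (c * w * c) (d * w * d) := h.st w hw c hc d hd
  have r2 : Commute (c * w' * c) (d * w' * d) := h.st w' hw' c hc d hd
  have r3 := h.co b0 (h.m3 a1) h.m1
  have r4 := h.co a0 (h.m3 b1) h.m1
  rw [← e] at r4
  have s1 : c * (w * w') * c = c * w * c * (c * w' * c) := by simp only [← mul_assoc, mul_sq c2]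
  have s2 : d * (w * w') * d = d * w * d * (d * w' * d) := by simp only [← mul_assoc, mul_sq d2]
  have q0 := h.sq _ a0
  have q1 := h.sq _ a1
  have q2 := h.sq _ b0
  have q3 := h.sq _ b1
  rw [s1, s2]
  generalize c * w * c = α at *
  generalize c * w' * c = α' at *
  generalize d * w * d = δ at *
  generalize d * w' * d = δ' at *
  have t1 : α' * δ = cm α' δ * (δ * α') := by simp only [cm, ← mul_assoc, mul_sq q2, mul_sq q1]
  have t2 : δ' * α = cm α' δ * (α * δ') := by
    rw [e]; simp only [cm, ← mul_assoc, mul_sq q0, mul_sq q3]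
  generalize cm α' δ = ψ at *
  calc α * α' * (δ * δ') = α * (α' * δ) * δ' := by simp only [mul_assoc]
    _ = α * ψ * δ * (α' * δ') := by rw [t1]; simp only [mul_assoc]
    _ = ψ * (α * δ) * (δ' * α') := by rw [← r4.eq, r2.eq]; simp only [mul_assoc]
    _ = δ * ψ * α * (δ' * α') := by rw [r1.eq, ← r3.eq]; simp only [mul_assoc]
    _ = δ * (δ' * α) * α' := by rw [t2]; simp only [mul_assoc]
    _ = _ := by simp only [mul_assoc]

lemma SC.step (h : SC D) : SC (nx D) := by
  have c1 : ∀ a ∈ nx D, ∀ b ∈ D, b * a * b ∈ nx D := by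
    rintro a (ha | ⟨u, hu, v, hv, rfl⟩) b hb
    · exact Or.inl (h.cj a ha b hb)
    · refine Or.inr ⟨_, h.cj u hu b hb, _, h.cj v hv b hb, ?_⟩
      simp only [cm, ← mul_assoc, mul_sq (h.sq b hb)]
  refine ⟨Or.inl h.one, fun a ha => h.sqn ha, ?_, fun a ha b hb c hc => ?_⟩
  · rintro a ha b (hb | ⟨p, hp, q, hq, rfl⟩)
    · exact c1 a ha b hb
    · rw [h.split hp hq]
      exact c1 _ (c1 a ha p hp) _ (h.cj p hp q hq)
  have m5 : ∀ b ∈ nx D, b * a * b ∈ B D a := by
    rintro b (hb | ⟨p, hp, q, hq, rfl⟩)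
    · exact m0 hb
    · rw [h.form hp hq (h.sqn ha)
        (by simpa only [cm, mul_assoc] using mul_mem h.m1 (h.m4 hp ha))]
      exact mul_mem (h.m3 hp) (m0 (h.cj p hp q hq))
  refine comB (fun b hb c hc => ?_) (m5 b hb) (m5 c hc)
  rcases ha with ha | ⟨w, hw, z, hz, rfl⟩
  · exact h.st a ha b hb c hc
  · have z2 := h.sq z hz
    have hw' : w ∈ B D (z * w * z) := by
      have := m0 (D := D) (u := z * w * z) hz
      rwa [show z * (z * w * z) * z = w by simp only [← mul_assoc, z2, one_mul, mul_sq z2]] at this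
    simpa only [cm, mul_assoc] using h.tau hw (h.cj w hw z hz) hb hc (m0 hz) hw'

/-- The strong sandwich theorem without closure under commutators. -/
theorem SC.lf (h : SC D) : LF (closure D) := by
  have h1 : ∀ n, SC (nx^[n] D) := fun n => by
    induction n with
    | zero => exact h
    | succ n ih => rw [Function.iterate_succ_apply']; exact ih.step
  have h2 : Monotone fun n => nx^[n] D := monotone_nat_of_le_succ fun n => by
    rw [Function.iterate_succ_apply']; exact Set.subset_union_left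
  have h3 : SW (⋃ n, nx^[n] D) := by
    refine ⟨Set.mem_iUnion.2 ⟨0, h.one⟩, fun u hu => ?_, fun u hu v hv => ?_,
      fun u hu b hb c hc => ?_⟩
    · obtain ⟨n, hn⟩ := Set.mem_iUnion.1 hu
      exact (h1 n).sq u hn
    · obtain ⟨n, hn⟩ := Set.mem_iUnion.1 hu
      obtain ⟨m, hm⟩ := Set.mem_iUnion.1 hv
      refine Set.mem_iUnion.2 ⟨max n m + 1, ?_⟩
      rw [Function.iterate_succ_apply']
      exact Or.inr ⟨u, h2 (le_max_left n m) hn, v, h2 (le_max_right n m) hm, rfl⟩
    · obtain ⟨n, hn⟩ := Set.mem_iUnion.1 hu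
      obtain ⟨m, hm⟩ := Set.mem_iUnion.1 hb
      obtain ⟨k, hk⟩ := Set.mem_iUnion.1 hc
      exact (h1 (n + m + k)).st u (h2 (by omega : n ≤ n + m + k) hn) b
        (h2 (by omega : m ≤ n + m + k) hm) c (h2 (by omega : k ≤ n + m + k) hk)
  exact h3.lf.mono (closure_mono (Set.subset_iUnion (fun n => nx^[n] D) 0))

end Pool.Agent.Lib.MP_3b0e0c_al.U
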