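import Pool.Agent.Lib.MP_3b0e0c_al.U.Root

/-! The root trick one step higher, and two-generator subgroups of class at most ten. -/

namespace Pool.Agent.Lib.MP_3b0e0c_al.U

open Subgroup S
open scoped commutatorElement

variable {G : Type*} [Group G]

lemma LF_strong {s : G} (s2 : s * s = 1) (h0 : ∀ g : G, Commute s (g * s * g⁻¹ * s * (g * s * g⁻¹)))
    (h : ∀ g k : G, Commute (g * s * g⁻¹ * s * (g * s * g⁻¹)) (k * s * k⁻¹ * s * (k * s * k⁻¹))) :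
    LF (normalClosure {s}) := by
  let D : Set G := {v | v = 1 ∨ ∃ g, v = g * s * g⁻¹}
  have sq : ∀ v ∈ D, v * v = 1 := by
    rintro _ (rfl | ⟨g, rfl⟩)
    · simp
    · rw [conj_mul, s2]; simp
  have i1 : ∀ v ∈ D, v⁻¹ = v := fun v hv => inv_eq_of_mul_eq_one_right (sq v hv)
  have cj : ∀ v ∈ D, ∀ g : G, g * v * g⁻¹ ∈ D := by
    rintro _ (rfl | ⟨k, rfl⟩) g
    · exact Or.inl (by simp)
    · exact Or.inr ⟨g * k, by group⟩
  have a6 : ∀ b ∈ D, ∀ c ∈ D, Commute (b * s * b) (c * s * c) := by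
    rintro _ (rfl | ⟨g, rfl⟩) _ (rfl | ⟨k, rfl⟩)
    · exact Commute.refl _
    · simpa using h0 k
    · simpa using (h0 g).symm
    · exact h g k
  have hD : SC D := by
    refine ⟨Or.inl rfl, sq, fun u hu v hv => by simpa only [i1 v hv] using cj u hu v, ?_⟩
    rintro _ (rfl | ⟨g, rfl⟩) b hb c hc
    · simp [sq b hb]
    · have := (a6 _ (cj b hb g⁻¹) _ (cj c hc g⁻¹)).conj g
      rwa [show ∀ b : G, g * (g⁻¹ * b * g⁻¹⁻¹ * s * (g⁻¹ * b * g⁻¹⁻¹)) * g⁻¹ =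
        b * (g * s * g⁻¹) * b from fun b => by group,
        show ∀ b : G, g * (g⁻¹ * b * g⁻¹⁻¹ * s * (g⁻¹ * b * g⁻¹⁻¹)) * g⁻¹ =
        b * (g * s * g⁻¹) * b from fun b => by group] at this
  refine hD.lf.mono (closure_mono fun z hz => ?_)
  obtain ⟨u, h1, hz⟩ := Group.mem_conjugatesOfSet_iff.1 hz
  rw [Set.mem_singleton_iff.1 h1] at hz
  obtain ⟨g, rfl⟩ := isConj_iff.1 hz
  exact Or.inr ⟨g, rfl⟩

/-- `t` lies in the second centre of `⟨x, g⟩`. -/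
def Z2 (t x g : G) : Prop :=
  Commute ⁅x, t⁆ x ∧ Commute ⁅x, t⁆ g ∧ Commute ⁅g, t⁆ x ∧ Commute ⁅g, t⁆ g

lemma Z2.conj {t x g : G} (h : Z2 t x g) (k : G) :
    Z2 (k * t * k⁻¹) (k * x * k⁻¹) (k * g * k⁻¹) := by
  simp only [Z2, ← conjugate_commutatorElement]
  exact ⟨h.1.conj k, h.2.1.conj k, h.2.2.1.conj k, h.2.2.2.conj k⟩

lemma cc {a b k : G} (h : Commute a k) : k * (a * b) * k⁻¹ = a * (k * b * k⁻¹) := by
  rw [← mul_assoc, ← h.eq]; simp only [mul_assoc]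

lemma cf {a k : G} (h : Commute a k) : k * a * k⁻¹ = a := by
  rw [← h.eq, mul_inv_cancel_right]

lemma fc {a k : G} (h : k * a * k⁻¹ = a) : Commute a k := (mul_inv_eq_iff_eq_mul.1 h).symm

lemma root_data {x s : G} (hs : s = x ^ 4) (s2 : s * s = 1)
    (h : ∀ g : G, Z2 ⁅s, g * s * g⁻¹⁆ x g) (g : G) :
    Commute s ⁅s, g * s * g⁻¹⁆ ∧ ∃ c, c * c = 1 ∧ (∀ k, Commute s k → Commute c k) ∧
      (∀ l, Commute (g * s * g⁻¹) l → Commute c l) ∧
      ∀ b, Commute s b → b * x * b⁻¹ * ⁅s, g * s * g⁻¹⁆ * (b * x * b⁻¹)⁻¹ =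
        c * ⁅s, g * s * g⁻¹⁆ := by
  have s1 : s⁻¹ = s := inv_eq_of_mul_eq_one_right s2
  have e0 : ∀ g k, Commute s k → g * k * s * (g * k)⁻¹ = g * s * g⁻¹ := fun g k hk => by
    rw [show g * k * s * (g * k)⁻¹ = g * (k * s * k⁻¹) * g⁻¹ by group, cf hk]
  have h' : ∀ g k, Commute s k → Z2 ⁅s, g * s * g⁻¹⁆ (k * x * k⁻¹) g := fun g k hk => by
    have := (h (k⁻¹ * g * k)).conj k
    rwa [conjugate_commutatorElement, cf hk, e0 _ k hk,
      show k * (k⁻¹ * g * s * (k⁻¹ * g)⁻¹) * k⁻¹ = g * s * g⁻¹ by group,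
      show k * (k⁻¹ * g * k) * k⁻¹ = g by group] at this
  obtain ⟨t, ht⟩ : ∃ t, t = ⁅s, g * s * g⁻¹⁆ := ⟨_, rfl⟩
  have hg := h g
  have hgk : ∀ k, Commute s k → ∀ l, Commute s l → Z2 t (l * x * l⁻¹) (g * k) := fun k hk l hl => by
    have := h' (g * k) l hl
    rwa [e0 g k hk, ← ht] at this
  rw [← ht] at hg ⊢
  obtain ⟨c, hc⟩ : ∃ c, c = ⁅x, t⁆ := ⟨_, rfl⟩
  have c1 : Commute c g := hc ▸ hg.2.1
  have c0 : Commute c x := hc ▸ hg.1
  have c2 : ∀ k, Commute s k → Commute c k := fun k hk => by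
    have := (hgk k hk 1 (Commute.one_right s)).2.1
    rw [one_mul, inv_one, mul_one, ← hc] at this
    simpa using c1.inv_right.mul_right this
  have cs : Commute c s := c2 s (Commute.refl s)
  have ct : Commute c t := by
    rw [ht, commutatorElement_def]
    have := (c1.mul_right cs).mul_right c1.inv_right
    exact ((cs.mul_right this).mul_right cs.inv_right).mul_right this.inv_right
  have x1 : x * t * x⁻¹ = c * t := by rw [hc, commutatorElement_def]; group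
  have x2 : s * t * s⁻¹ = c ^ 4 * t := by
    calc _ = x * (x * (x * (x * t * x⁻¹) * x⁻¹) * x⁻¹) * x⁻¹ := by
          rw [hs]; simp only [pow_succ, pow_zero, one_mul, mul_inv_rev, mul_assoc]
      _ = _ := by
          simp only [x1, cc c0]; simp only [pow_succ, pow_zero, one_mul, mul_assoc]
  have x3 : s * t * s⁻¹ = t⁻¹ := by
    have v1 : (g * s * g⁻¹)⁻¹ = g * s * g⁻¹ := by rw [mul_inv_rev, mul_inv_rev, inv_inv, s1, mul_assoc]
    rw [ht, commutatorElement_inv, commutatorElement_def, commutatorElement_def, v1, s1]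
    simp only [← mul_assoc, s2, one_mul]
  have x4 : c ^ 4 * (t * t) = 1 := by rw [← mul_assoc, ← x2, x3, inv_mul_cancel]
  have x5 : c * c = 1 := by
    have e1 : x * (c ^ 4 * (t * t)) * x⁻¹ = 1 := by rw [x4]; simp
    rw [cc (c0.pow_left 4), ← conj_mul, x1, show c * t * (c * t) = c * (t * c) * t by
      simp only [mul_assoc], ← ct.eq, show c ^ 4 * (c * (c * t) * t) = c * c * (c ^ 4 * (t * t)) by
      group, x4, mul_one] at e1
    exact e1
  refine ⟨?_, c, x5, c2, fun l hl => ?_, fun b hb => ?_⟩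
  · rw [show 4 = 2 * 2 from rfl, pow_mul, pow_two c, x5, one_pow, one_mul] at x2
    exact (fc x2).symm
  · have h1 := hl.conj g⁻¹
    rw [show g⁻¹ * (g * s * g⁻¹) * g⁻¹⁻¹ = s by group] at h1
    have := (c1.mul_right (c2 _ h1)).mul_right c1.inv_right
    rwa [show g * (g⁻¹ * l * g⁻¹⁻¹) * g⁻¹ = l by group] at this
  · have k1 := hgk b⁻¹ hb.inv_right b hb
    have k2 := (k1.2.2.1.conj b⁻¹)
    rw [show b⁻¹ * (b * x * b⁻¹) * b⁻¹⁻¹ = x by group] at k2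
    have k3 : b⁻¹ * t * b⁻¹⁻¹ = b⁻¹ * ⁅g * b⁻¹, t⁆ * b⁻¹⁻¹ * ⁅g, t⁆⁻¹ * t := by
      have e1 : g * (b⁻¹ * ⁅g * b⁻¹, t⁆ * b⁻¹⁻¹) * g⁻¹ = ⁅g * b⁻¹, t⁆ := by
        rw [← cf k1.2.2.2]; nth_rewrite 1 [cf k1.2.2.2]; group
      have e2 := cf hg.2.2.2.inv_left
      have e3 : g * (b⁻¹ * ⁅g * b⁻¹, t⁆ * b⁻¹⁻¹ * ⁅g, t⁆⁻¹ * t) * g⁻¹ =
          g * (b⁻¹ * t * b⁻¹⁻¹) * g⁻¹ := by
        rw [← conj_mul, ← conj_mul, e1, e2]
        simp only [commutatorElement_def]; group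
      simpa only [mul_left_inj, mul_right_inj] using e3.symm
    have k4 := k2.mul_left hg.2.2.1.inv_left
    generalize b⁻¹ * ⁅g * b⁻¹, t⁆ * b⁻¹⁻¹ * ⁅g, t⁆⁻¹ = ε at k3 k4
    have k5 : Commute c ε := c2 _ (hs ▸ (k4.pow_right 4).symm)
    calc _ = b * (x * (b⁻¹ * t * b⁻¹⁻¹) * x⁻¹) * b⁻¹ := by group
      _ = b * (c * (ε * t)) * b⁻¹ := by
          rw [k3, cc k4, x1, ← mul_assoc ε, ← k5.eq, mul_assoc c]
      _ = _ := by rw [← k3, cc (c2 b hb)]; group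

/-- The root trick in the second centre. -/
theorem LF_root2 {x : G} (hx : x ^ 8 = 1)
    (h : ∀ g : G, Z2 ⁅x ^ 4, g * x ^ 4 * g⁻¹⁆ x g) : LF (normalClosure {x ^ 4}) := by
  obtain ⟨s, hs⟩ : ∃ s, s = x ^ 4 := ⟨_, rfl⟩
  rw [← hs] at h ⊢
  have s2 : s * s = 1 := by rw [hs, ← pow_add, hx]
  have s1 : s⁻¹ = s := inv_eq_of_mul_eq_one_right s2
  have sx : Commute s x := hs ▸ (Commute.refl x).pow_left 4
  have sq : ∀ g : G, g * s * g⁻¹ * (g * s * g⁻¹) = 1 := fun g => by rw [conj_mul, s2]; simp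
  have i1 : ∀ g : G, (g * s * g⁻¹)⁻¹ = g * s * g⁻¹ := fun g => inv_eq_of_mul_eq_one_right (sq g)
  have P := root_data hs s2 h
  have e0 : ∀ g : G, ⁅s, g * s * g⁻¹⁆ = s * (g * s * g⁻¹ * s * (g * s * g⁻¹)) := fun g => by
    rw [commutatorElement_def, s1, i1]; simp only [mul_assoc]
  have a3 : ∀ g : G, Commute s (g * s * g⁻¹ * s * (g * s * g⁻¹)) := fun g => by
    have := (Commute.refl s).mul_right (P g).1
    rwa [e0, ← mul_assoc, s2, one_mul] at this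
  have a3' : ∀ g k : G, Commute (k * s * k⁻¹) (g * s * g⁻¹ * (k * s * k⁻¹) * (g * s * g⁻¹)) := by
    intro g k
    have := (a3 (k⁻¹ * g)).conj k
    rwa [show k * (k⁻¹ * g * s * (k⁻¹ * g)⁻¹ * s * (k⁻¹ * g * s * (k⁻¹ * g)⁻¹)) * k⁻¹ =
      g * s * g⁻¹ * (k * s * k⁻¹) * (g * s * g⁻¹) by group] at this
  have P' : ∀ a g : G, ∃ c, c * c = 1 ∧ (∀ k, Commute (a * s * a⁻¹) k → Commute c k) ∧
      ∀ b, b * s * b⁻¹ = a * s * a⁻¹ → b * x * b⁻¹ * ⁅a * s * a⁻¹, g * s * g⁻¹⁆ * (b * x * b⁻¹)⁻¹ =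
        c * ⁅a * s * a⁻¹, g * s * g⁻¹⁆ := by
    intro a g
    obtain ⟨-, c, c2, cs, -, cx⟩ := P (a⁻¹ * g)
    refine ⟨a * c * a⁻¹, by rw [conj_mul, c2]; simp, fun k hk => ?_, fun b hb => ?_⟩
    · have h1 := hk.conj a⁻¹
      rw [show a⁻¹ * (a * s * a⁻¹) * a⁻¹⁻¹ = s by group] at h1
      have := (cs _ h1).conj a
      rwa [show a * (a⁻¹ * k * a⁻¹⁻¹) * a⁻¹ = k by group] at this
    · have h1 : Commute s (a⁻¹ * b) := fc (by
        rw [show a⁻¹ * b * s * (a⁻¹ * b)⁻¹ = a⁻¹ * (b * s * b⁻¹) * a by group, hb]; group)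
      have h2 : ⁅a * s * a⁻¹, g * s * g⁻¹⁆ = a * ⁅s, a⁻¹ * g * s * (a⁻¹ * g)⁻¹⁆ * a⁻¹ := by
        simp only [commutatorElement_def]; group
      rw [h2, conj_mul, ← cx _ h1]; group
  refine LF_strong s2 a3 fun g k => ?_
  obtain ⟨-, c, c2, cs, cw, cx⟩ := P k
  obtain ⟨-, d, d2, ds, -, dx⟩ := P g
  have b0 := a3' (x * k) k
  have b1 := a3' g k
  have b2 := a3 g
  have b3 := a3 k
  have w1 := i1 k
  have w2 := sq k
  have v1 := i1 g
  have v2 := sq g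
  have b4 := sq (x * k)
  have Q := fun a => P' a g
  rw [show x * k * s * (x * k)⁻¹ = x * (k * s * k⁻¹) * x⁻¹ by group] at b0 b4
  rw [e0] at cx dx
  generalize k * s * k⁻¹ = w at b0 b1 b3 w1 w2 b4 cx cw ⊢
  generalize g * s * g⁻¹ = v at b1 b2 v1 v2 Q dx ⊢
  obtain ⟨y, hy⟩ : ∃ y, y = w * x * w⁻¹ := ⟨_, rfl⟩
  have y4 : y ^ 4 = w * s * w := by rw [hy, conj_pow, ← hs, w1]
  have c0 := cw w (Commute.refl w)
  have cy : Commute c y := hy ▸ (c0.mul_right (cs x sx)).mul_right c0.inv_right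
  have y1 : y * s * y⁻¹ = c * s := by
    have e1 := cx 1 (Commute.one_right s)
    rw [one_mul, inv_one, mul_one, cc sx] at e1
    have e2 : y * s * y⁻¹ = w * (x * (w * s * w) * x⁻¹) * w := by
      rw [hy, mul_inv_rev, mul_inv_rev, inv_inv, w1]; simp only [mul_assoc]
    have e3 : x * (w * s * w) * x⁻¹ = c * (w * s * w) := by
      rw [← mul_right_inj s, e1, ← mul_assoc, ← mul_assoc s c, (cs s (Commute.refl s)).eq]
    rw [e2, e3, ← mul_assoc, ← c0.eq]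
    simp only [← mul_assoc, mul_sq w2]
  have y2 : y⁻¹ * s * y⁻¹⁻¹ = c * s := by
    calc _ = y⁻¹ * (c * (y * s * y⁻¹)) * y⁻¹⁻¹ := by rw [y1, ← mul_assoc c, c2, one_mul]
      _ = _ := by rw [cc cy.inv_right]; group
  have y3 : Commute s (y⁻¹ ^ 2) := fc (by
    calc _ = y⁻¹ * (y⁻¹ * s * y⁻¹⁻¹) * y⁻¹⁻¹ := by simp only [pow_two, mul_inv_rev, mul_assoc]
      _ = _ := by rw [y2, cc cy.inv_right, y2, ← mul_assoc, c2, one_mul])
  have y5 : (x * y⁻¹) ^ 4 = 1 := by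
    have e1 : x * y⁻¹ = x * w * x⁻¹ * w := by rw [hy, mul_inv_rev, mul_inv_rev, inv_inv, w1]; group
    rw [e1]
    generalize x * w * x⁻¹ = r at b0 b4
    calc _ = r * w * r * w * (r * w * r) * w := by
          simp only [pow_succ, pow_zero, one_mul, mul_assoc]
      _ = r * w * r * (r * w * r * w) * w := by rw [mul_assoc _ w, b0.eq]
      _ = _ := by simp only [← mul_assoc, mul_sq b4, mul_sq w2, b4]
  obtain ⟨z, hz⟩ : ∃ z, z = y⁻¹ ^ 2 * x * (y⁻¹ ^ 2)⁻¹ := ⟨_, rfl⟩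
  have sz : Commute s z := hz ▸ (y3.mul_right sx).mul_right y3.inv_right
  have y6 : w * s * w = x * z * (z⁻¹ * y⁻¹ * x * (z⁻¹ * y⁻¹)⁻¹) * (y⁻¹ ^ 3 * x * (y⁻¹ ^ 3)⁻¹) := by
    rw [← y4, ← one_mul (y ^ 4), ← y5, hz]
    simp only [pow_succ, pow_zero, one_mul, mul_inv_rev, inv_inv, mul_assoc, inv_mul_cancel_left,
      mul_inv_cancel_left]
  obtain ⟨e, e2, es, ex⟩ := Q y⁻¹
  rw [y2] at es ex
  have r1 : z⁻¹ * y⁻¹ * s * (z⁻¹ * y⁻¹)⁻¹ = c * s := by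
    rw [show z⁻¹ * y⁻¹ * s * (z⁻¹ * y⁻¹)⁻¹ = z⁻¹ * (y⁻¹ * s * y⁻¹⁻¹) * z⁻¹⁻¹ by group, y2,
      cf ((cs z sz).mul_left sz).inv_right]
  have r2 : y⁻¹ ^ 3 * s * (y⁻¹ ^ 3)⁻¹ = c * s := by
    rw [show y⁻¹ ^ 3 * s * (y⁻¹ ^ 3)⁻¹ = y⁻¹ * (y⁻¹ ^ 2 * s * (y⁻¹ ^ 2)⁻¹) * y⁻¹⁻¹ by group,
      cf y3, y2]
  have r3 : Commute e (z⁻¹ * y⁻¹ * x * (z⁻¹ * y⁻¹)⁻¹) := es _ (r1 ▸ sx.conj _)
  have r4 : Commute ⁅c * s, v⁆ (z⁻¹ * y⁻¹ * x * (z⁻¹ * y⁻¹)⁻¹ * (y⁻¹ ^ 3 * x * (y⁻¹ ^ 3)⁻¹)) := by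
    have f1 := ex _ r1
    have f2 := ex _ r2
    generalize z⁻¹ * y⁻¹ * x * (z⁻¹ * y⁻¹)⁻¹ = p at f1 r3 ⊢
    generalize y⁻¹ ^ 3 * x * (y⁻¹ ^ 3)⁻¹ = q at f2 ⊢
    refine fc ?_
    rw [show p * q * ⁅c * s, v⁆ * (p * q)⁻¹ = p * (q * ⁅c * s, v⁆ * q⁻¹) * p⁻¹ by group, f2, cc r3,
      f1, ← mul_assoc, e2, one_mul]
  have r5 : Commute (s * (v * s * v)) (x * z) := by
    have f1 := dx 1 (Commute.one_right s)
    have f2 := dx _ y3
    rw [one_mul, inv_one, mul_one] at f1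
    rw [← hz] at f2
    refine fc ?_
    rw [show x * z * (s * (v * s * v)) * (x * z)⁻¹ = x * (z * (s * (v * s * v)) * z⁻¹) * x⁻¹ by
      group, f2, cc (ds x sx), f1, ← mul_assoc, d2, one_mul]
  have vc : ∀ q, Commute c (v * q * v) → Commute (v * c * v) q := fun q hq => conj_comm v2 hq
  have r6 : Commute (v * s * v) (x * z) := by
    simpa only [← mul_assoc s, s2, one_mul] using (sx.mul_right sz).mul_left r5
  have r7 : Commute (v * c * v) (x * z) := vc _ (cs _ (conj_comm v2 r6.symm).symm)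
  have r8 : ⁅c * s, v⁆ = c * (s * (v * s * v)) * (v * c * v) := by
    rw [commutatorElement_def, mul_inv_rev, s1, v1, inv_eq_of_mul_eq_one_right c2]
    simp only [← mul_assoc, mul_sq v2]
  have r9 : Commute ⁅c * s, v⁆ (w * s * w) := by
    rw [y6, mul_assoc (x * z)]
    refine Commute.mul_right ?_ r4
    rw [r8]
    exact ((cs _ (sx.mul_right sz)).mul_left r5).mul_left r7
  have q1 : Commute (v * c * v) (w * s * w) :=
    ((vc w (cw _ b1)).mul_right (vc s (cs _ b2))).mul_right (vc w (cw _ b1))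
  rw [r8] at r9
  have q2 := (b3.mul_left ((cs _ b3).mul_left r9)).mul_left q1
  simpa only [← mul_assoc, mul_sq c2, mul_sq v2, s2, one_mul] using q2

lemma deep {x g : G} {n : ℕ}
    (hc : ∀ (a b : closure ({x, g} : Set G)), (a : G) = x →
      (closure {QuotientGroup.mk' (Γ _ 8) a, QuotientGroup.mk' (Γ _ 8) b *
        QuotientGroup.mk' (Γ _ 8) a * (QuotientGroup.mk' (Γ _ 8) b)⁻¹}).lowerCentralSeries 7
        = ⊥ → Commute (QuotientGroup.mk' (Γ _ 8) a ^ n) ((QuotientGroup.mk' (Γ _ 8) b *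
        QuotientGroup.mk' (Γ _ 8) a * (QuotientGroup.mk' (Γ _ 8) b)⁻¹) ^ n)) :
    ⁅x ^ n, g * x ^ n * g⁻¹⁆ ∈ (closure {x, g}).lowerCentralSeries 8 := by
  let a : closure ({x, g} : Set G) := ⟨x, subset_closure (by simp)⟩
  let b : closure ({x, g} : Set G) := ⟨g, subset_closure (by simp)⟩
  have h8 : (closure {QuotientGroup.mk' (Γ _ 8) a,
      QuotientGroup.mk' (Γ _ 8) b}).lowerCentralSeries 8 = ⊥ := by
    rw [← Set.image_pair, ← MonoidHom.map_closure, ← map_lowerCentralSeries,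
      Subgroup.map_eq_bot_iff, QuotientGroup.ker_mk']
    exact lowerCentralSeries_mono 8 le_top
  have h1 := hc a b rfl (conj_class h8)
  rw [conj_pow, ← map_pow, ← map_inv, ← map_mul, ← map_mul,
    ← commutatorElement_eq_one_iff_commute, ← map_commutatorElement] at h1
  have h2 := mem_map_of_mem (closure ({x, g} : Set G)).subtype ((QuotientGroup.eq_one_iff _).1 h1)
  rwa [map_lowerCentralSeries, ← MonoidHom.range_eq_map, subtype_range] at h2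

lemma z2_of {K : Subgroup G} (h : K.lowerCentralSeries 10 = ⊥) {t x g : G}
    (ht : t ∈ K.lowerCentralSeries 8) (hx : x ∈ K) (hg : g ∈ K) : Z2 t x g := by
  have key : ∀ a ∈ K, ∀ b ∈ K, Commute ⁅a, t⁆ b := fun a ha b hb => by
    have h1 := inv_mem (commutator_mem_commutator ht ha)
    rw [← Subgroup.lowerCentralSeries_succ, commutatorElement_inv] at h1
    have h2 := commutator_mem_commutator h1 hb
    rwa [← Subgroup.lowerCentralSeries_succ, h, mem_bot,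
      commutatorElement_eq_one_iff_commute] at h2
  exact ⟨key x hx x hx, key x hx g hg, key g hg x hx, key g hg g hg⟩

theorem LF_of_ten (h2 : IsPGroup 2 G)
    (h : ∀ x g : G, (closure {x, g}).lowerCentralSeries 10 = ⊥) : LF (⊤ : Subgroup G) := by
  have hq := h2.to_quotient (rad G)
  have h10 : ∀ x g : G ⧸ rad G, (closure {x, g}).lowerCentralSeries 10 = ⊥ := by
    intro x g
    obtain ⟨x, rfl⟩ := QuotientGroup.mk'_surjective _ x
    obtain ⟨g, rfl⟩ := QuotientGroup.mk'_surjective _ g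
    have := congrArg (Subgroup.map (QuotientGroup.mk' (rad G))) (h x g)
    rwa [Subgroup.map_lowerCentralSeries, MonoidHom.map_closure, Set.image_pair,
      Subgroup.map_bot] at this
  have triv : ∀ x : G ⧸ rad G, x ^ 8 = 1 → (∀ g, Z2 ⁅x ^ 4, g * x ^ 4 * g⁻¹⁆ x g) → x ^ 4 = 1 :=
    fun x hx h => quot_triv (LF_root2 hx h) (subset_normalClosure rfl)
  have e8 : ∀ u : G ⧸ rad G, u ^ 8 = 1 := fun u => by
    obtain ⟨k, hk⟩ := hq u
    refine descend (c := 8) (fun j e => ?_) hk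
    rw [mul_comm, pow_mul]
    have e1 : (u ^ j) ^ 16 = 1 := by rw [← e, ← pow_mul]; congr 1; ring
    generalize u ^ j = z at e1
    have e2 : (z ^ 2) ^ 4 = z ^ 8 := by rw [← pow_mul]
    rw [← e2]
    refine triv _ (by rw [← pow_mul, e1]) fun g => ?_
    rw [e2]
    refine z2_of (h10 z g) (deep fun a b ha h7 => ?_) (pow_mem (subset_closure (by simp)) 2)
      (subset_closure (by simp))
    have e3 : QuotientGroup.mk' (Γ _ 8) a ^ 16 = 1 := by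
      rw [← map_pow, show a ^ 16 = 1 from Subtype.ext (by rw [coe_pow, ha, e1]; rfl), map_one]
    exact commA ((hq.to_subgroup _).to_quotient _) h7 e3
      (by rw [conj_pow, e3, mul_one, mul_inv_cancel])
  have e4 : ∀ u : G ⧸ rad G, u ^ 4 = 1 := fun u => triv u (e8 u) fun g => by
    refine z2_of (h10 u g) (deep fun a b _ h7 => commB h7 fun v => ?_) (subset_closure (by simp))
      (subset_closure (by simp))
    obtain ⟨v, rfl⟩ := QuotientGroup.mk'_surjective _ v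
    rw [← map_pow, show v ^ 8 = 1 from Subtype.ext (e8 _), map_one]
  have hk : LF (QuotientGroup.mk' (rad G)).ker := by rw [QuotientGroup.ker_mk']; exact LF_rad
  have := LF.comap _ hk (sanov e4)
  rwa [comap_top] at this

end Pool.Agent.Lib.MP_3b0e0c_al.U
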